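import Mathlib

/-!
# MP_31ab2b_pr : the unit-arrow model never homogenizes in the sense of the problem file

The page says that the static random unit-arrow walk *homogenizes* if (i) an averaged CLT with
covariance `σ² I_d`, `σ² > 0`, holds and (ii) for all `C, δ > 0`,
`sup { μ(|p_ω(n,x)/m₁(n,x) - 1| > δ) : |x| ≤ C√n, m₁(n,x) > 0 } → 0`.

We prove that (ii) fails for every `d ≥ 1` and every `0 < ε < 1/(2d)`.

Idea: `p_ω(n+1,0) = ∑_{z ~ 0} p_ω(n,z) p(z,0,ω)`.  If no neighbour's arrow leads to `0` all the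
inflow factors are `ε`; if every neighbour's arrow leads to `0` they are all `1-(2d-1)ε > ε`.
Both events have a fixed positive probability, whereas (ii) at times `n`, `n+1` would make
`p_ω(n,z)` (`z ~ 0`) and `p_ω(n+1,0)` almost deterministic.  Contradiction.
-/

namespace Pool.Agent.Results.MP_31ab2b_pr.NoPointwiseHomogenization

open MeasureTheory ProbabilityTheory Filter Topology

/-- The `2d` unit arrows, as labels: direction and sign. -/
abbrev Arrow (d : ℕ) := Fin d × Bool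

/-- The unit vector `± e_i` of a label. -/
def vec {d : ℕ} (a : Arrow d) : Fin d → ℤ :=
  if a.2 then Pi.single a.1 1 else -Pi.single a.1 1

/-- An environment: one arrow at each site of `ℤ^d`. -/
abbrev Env (d : ℕ) := (Fin d → ℤ) → Arrow d

/-- The uniform law on the `2d` arrows. -/
noncomputable def arrowLaw (d : ℕ) : Measure (Arrow d) := uniformOn Set.univ

instance (d : ℕ) [NeZero d] : IsProbabilityMeasure (arrowLaw d) := by
  unfold arrowLaw
  exact isProbabilityMeasure_uniformOn Set.finite_univ Set.univ_nonempty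

/-- The law `μ` of the environment: independent uniform arrows. -/
noncomputable def envLaw (d : ℕ) [NeZero d] : Measure (Env d) :=
  Measure.infinitePi (fun _ : Fin d → ℤ => arrowLaw d)

instance (d : ℕ) [NeZero d] : IsProbabilityMeasure (envLaw d) := by
  unfold envLaw; infer_instance

/-- The transition probability `p(x,z,ω)` of a step from `x` to `z`. -/
noncomputable def trans {d : ℕ} (ε : ℝ) (ω : Env d) (x z : Fin d → ℤ) : ℝ :=
  if x - z = vec (ω x) then 1 - (2 * d - 1) * ε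
  else if ∑ i, |(x - z) i| = 1 then ε else 0

/-- `p_ω(n,x)`: the law at time `n` of the Markov chain started at `0`. -/
noncomputable def kern {d : ℕ} (ε : ℝ) (ω : Env d) : ℕ → (Fin d → ℤ) → ℝ
  | 0, x => if x = 0 then 1 else 0
  | n + 1, x => ∑' z, kern ε ω n z * trans ε ω z x

/-- `m₁(n,x)`: the averaged kernel. -/
noncomputable def avgKern (d : ℕ) [NeZero d] (ε : ℝ) (n : ℕ) (x : Fin d → ℤ) : ℝ :=
  ∫ ω, kern ε ω n x ∂(envLaw d)

/-- Condition (i): averaged CLT with covariance `σ² I_d`, `σ² > 0`. -/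
def CondI (d : ℕ) [NeZero d] (ε : ℝ) : Prop :=
  ∃ σ2 : NNReal, 0 < σ2 ∧ ∀ f : BoundedContinuousFunction (Fin d → ℝ) ℝ,
    Tendsto (fun n : ℕ => ∑' x : Fin d → ℤ,
        avgKern d ε n x * f (fun i => (x i : ℝ) / Real.sqrt n)) atTop
      (𝓝 (∫ y, f y ∂(Measure.pi fun _ : Fin d => gaussianReal 0 σ2)))

/-- Condition (ii): `p_ω(n,x)/m₁(n,x) → 1` in `μ`-measure, uniformly over `|x| ≤ C√n`
with `m₁(n,x) > 0` (Euclidean norm). -/
def CondII (d : ℕ) [NeZero d] (ε : ℝ) : Prop :=
  ∀ C > (0 : ℝ), ∀ δ > (0 : ℝ),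
    Tendsto (fun n : ℕ => ⨆ (x : Fin d → ℤ)
        (_ : Real.sqrt (∑ i, (x i : ℝ) ^ 2) ≤ C * Real.sqrt n ∧ 0 < avgKern d ε n x),
        envLaw d {ω | δ < |kern ε ω n x / avgKern d ε n x - 1|}) atTop (𝓝 0)

/-- The model homogenizes (for given `d`, `ε`). -/
def Homogenizes (d : ℕ) [NeZero d] (ε : ℝ) : Prop := CondI d ε ∧ CondII d ε

/-! ### Auxiliary facts -/

section aux

variable {d : ℕ}

/-- reversed label -/
def flip (a : Arrow d) : Arrow d := (a.1, !a.2)

lemma vec_inj : Function.Injective (vec : Arrow d → Fin d → ℤ) := by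
  rintro ⟨i, b⟩ ⟨j, c⟩ h
  have hij : i = j := by
    by_contra hne
    have := congrFun h i
    cases b <;> cases c <;> simp [vec, Pi.single_apply, hne] at this
  subst hij
  have := congrFun h i
  cases b <;> cases c <;> simp [vec] at this ⊢ <;> omega

lemma sum_abs_vec (a : Arrow d) : ∑ i, |vec a i| = 1 := by
  rcases a with ⟨i, b⟩
  rw [Finset.sum_eq_single i]
  · cases b <;> simp [vec]
  · intro j _ hj
    cases b <;> simp [vec, Pi.single_apply, hj]
  · simp

lemma sum_sq_vec (a : Arrow d) : ∑ i, ((vec a i : ℤ) : ℝ) ^ 2 = 1 := by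
  rcases a with ⟨i, b⟩
  rw [Finset.sum_eq_single i]
  · cases b <;> simp [vec]
  · intro j _ hj
    cases b <;> simp [vec, Pi.single_apply, hj]
  · simp

lemma exists_vec {v : Fin d → ℤ} (h : ∑ i, |v i| = 1) : ∃ a : Arrow d, v = vec a := by
  have hex : ∃ i, v i ≠ 0 := by
    by_contra hcon
    push Not at hcon
    simp [hcon] at h
  obtain ⟨i, hi⟩ := hex
  have hsplit : |v i| + ∑ j ∈ Finset.univ.erase i, |v j| = 1 := by
    rw [Finset.add_sum_erase _ (fun j => |v j|) (Finset.mem_univ i)]; exact h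
  have h1 : 1 ≤ |v i| := Int.one_le_abs hi
  have h2 : 0 ≤ ∑ j ∈ Finset.univ.erase i, |v j| :=
    Finset.sum_nonneg fun j _ => abs_nonneg _
  have h3 : ∑ j ∈ Finset.univ.erase i, |v j| = 0 := by omega
  have h4 : |v i| = 1 := by omega
  have h5 : ∀ j, j ≠ i → v j = 0 := by
    intro j hj
    have := (Finset.sum_eq_zero_iff_of_nonneg (fun j _ => abs_nonneg (v j))).1 h3 j
      (Finset.mem_erase.2 ⟨hj, Finset.mem_univ _⟩)
    simpa using this
  rcases (abs_eq (by norm_num : (0 : ℤ) ≤ 1)).1 h4 with hv | hv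
  · refine ⟨(i, true), funext fun j => ?_⟩
    by_cases hj : j = i
    · subst hj; simp [vec, hv]
    · simp [vec, Pi.single_apply, hj, h5 j hj]
  · refine ⟨(i, false), funext fun j => ?_⟩
    by_cases hj : j = i
    · subst hj; simp [vec, hv]
    · simp [vec, Pi.single_apply, hj, h5 j hj]

lemma trans_eq_zero {ε : ℝ} {ω : Env d} {z x : Fin d → ℤ}
    (h : ∀ a : Arrow d, z ≠ x + vec a) : trans ε ω z x = 0 := by
  unfold trans
  have h1 : ¬ (z - x = vec (ω z)) := fun h1 => h (ω z) (by rw [← h1]; abel)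
  have h2 : ¬ (∑ i, |(z - x) i| = 1) := by
    intro h2
    obtain ⟨a, ha⟩ := exists_vec h2
    exact h a (by rw [← ha]; abel)
  rw [if_neg h1, if_neg h2]

lemma kern_succ (ε : ℝ) (ω : Env d) (n : ℕ) (x : Fin d → ℤ) :
    kern ε ω (n + 1) x
      = ∑ a : Arrow d, kern ε ω n (x + vec a) * trans ε ω (x + vec a) x := by
  classical
  have hinj : Function.Injective (fun a : Arrow d => x + vec a) :=
    fun a b h => vec_inj (by simpa using h)
  show (∑' z, kern ε ω n z * trans ε ω z x) = _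
  rw [tsum_eq_sum (s := Finset.univ.image (fun a : Arrow d => x + vec a))]
  · rw [Finset.sum_image (fun a _ b _ h => hinj h)]
  · intro z hz
    rw [trans_eq_zero, mul_zero]
    intro a ha
    exact hz (Finset.mem_image.2 ⟨a, Finset.mem_univ _, ha.symm⟩)

lemma trans_step (ε : ℝ) (ω : Env d) (x : Fin d → ℤ) (a : Arrow d) :
    trans ε ω (x + vec a) x
      = if ω (x + vec a) = a then 1 - (2 * d - 1) * ε else ε := by
  unfold trans
  have h0 : x + vec a - x = vec a := by abel
  rw [h0]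
  by_cases h : ω (x + vec a) = a
  · rw [if_pos (by rw [h]), if_pos h]
  · have h' : ¬ (vec a = vec (ω (x + vec a))) := fun h' => h (vec_inj h'.symm)
    rw [if_neg h', if_pos (sum_abs_vec a), if_neg h]

end aux

section bounds

variable {d : ℕ} [NeZero d]

lemma one_sub_gt {ε : ℝ} (h1 : ε < 1 / (2 * d)) : ε < 1 - (2 * d - 1) * ε := by
  have hd : (0 : ℝ) < 2 * d := by
    have : (0 : ℝ) < d := by exact_mod_cast Nat.pos_of_ne_zero (NeZero.ne d)
    linarith
  rw [lt_div_iff₀ hd] at h1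
  nlinarith

lemma one_sub_le {ε : ℝ} (h0 : 0 < ε) : 1 - (2 * d - 1) * ε ≤ 1 := by
  have : (1 : ℝ) ≤ d := by exact_mod_cast Nat.pos_of_ne_zero (NeZero.ne d)
  nlinarith

lemma trans_bounds {ε : ℝ} (h0 : 0 < ε) (h1 : ε < 1 / (2 * d)) (ω : Env d)
    (x : Fin d → ℤ) (a : Arrow d) :
    ε ≤ trans ε ω (x + vec a) x ∧ trans ε ω (x + vec a) x ≤ 1 := by
  rw [trans_step]
  have := one_sub_gt (d := d) h1
  have h2 := one_sub_le (d := d) h0
  split_ifs <;> constructor <;> linarith

lemma kern_nonneg {ε : ℝ} (h0 : 0 < ε) (h1 : ε < 1 / (2 * d)) (ω : Env d) (n : ℕ) :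
    ∀ x, 0 ≤ kern ε ω n x := by
  induction n with
  | zero => intro x; unfold kern; split_ifs <;> norm_num
  | succ n ih =>
    intro x
    rw [kern_succ]
    exact Finset.sum_nonneg fun a _ =>
      mul_nonneg (ih _) (h0.le.trans (trans_bounds h0 h1 ω x a).1)

lemma kern_le {ε : ℝ} (h0 : 0 < ε) (h1 : ε < 1 / (2 * d)) (ω : Env d) (n : ℕ) :
    ∀ x, kern ε ω n x ≤ (Fintype.card (Arrow d) : ℝ) ^ n := by
  induction n with
  | zero => intro x; unfold kern; split_ifs <;> norm_num
  | succ n ih =>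
    intro x
    rw [kern_succ]
    calc _ ≤ ∑ _a : Arrow d, (Fintype.card (Arrow d) : ℝ) ^ n := by
            refine Finset.sum_le_sum fun a _ => ?_
            have h2 := trans_bounds h0 h1 ω x a
            have h3 := kern_nonneg h0 h1 ω n (x + vec a)
            calc _ ≤ kern ε ω n (x + vec a) * 1 := mul_le_mul_of_nonneg_left h2.2 h3
              _ ≤ _ := by rw [mul_one]; exact ih _
      _ = _ := by rw [Finset.sum_const, Finset.card_univ, nsmul_eq_mul, pow_succ]; ring

omit [NeZero d] in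
lemma kern_meas (ε : ℝ) (n : ℕ) :
    ∀ x, Measurable (fun ω : Env d => kern ε ω n x) := by
  induction n with
  | zero => intro x; unfold kern; exact measurable_const
  | succ n ih =>
    intro x
    simp_rw [kern_succ]
    refine Finset.measurable_sum _ fun a _ => (ih _).mul ?_
    simp_rw [trans_step]
    have : (fun ω : Env d => if ω (x + vec a) = a then 1 - (2 * d - 1) * ε else ε)
        = (fun c : Arrow d => if c = a then 1 - (2 * (d : ℝ) - 1) * ε else ε) ∘
          (fun ω : Env d => ω (x + vec a)) := rfl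
    rw [this]
    exact (Measurable.of_discrete).comp (measurable_pi_apply _)

lemma kern_int {ε : ℝ} (h0 : 0 < ε) (h1 : ε < 1 / (2 * d)) (n : ℕ) (x : Fin d → ℤ) :
    Integrable (fun ω : Env d => kern ε ω n x) (envLaw d) := by
  refine Integrable.mono' (integrable_const ((Fintype.card (Arrow d) : ℝ) ^ n))
    (kern_meas ε n x).aestronglyMeasurable (Filter.Eventually.of_forall fun ω => ?_)
  rw [Real.norm_eq_abs, abs_of_nonneg (kern_nonneg h0 h1 ω n x)]
  exact kern_le h0 h1 ω n x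

/-- Positivity: `p_ω(2k,0) ≥ ε^{2k}` and `p_ω(2k+1, ±e_i) ≥ ε^{2k+1}`. -/
lemma kern_lower {ε : ℝ} (h0 : 0 < ε) (h1 : ε < 1 / (2 * d)) (ω : Env d) (k : ℕ) :
    ε ^ (2 * k) ≤ kern ε ω (2 * k) 0 ∧
      ∀ a : Arrow d, ε ^ (2 * k + 1) ≤ kern ε ω (2 * k + 1) (vec a) := by
  have step1 : ∀ k, ε ^ (2 * k) ≤ kern ε ω (2 * k) 0 →
      ∀ a : Arrow d, ε ^ (2 * k + 1) ≤ kern ε ω (2 * k + 1) (vec a) := by
    intro k hk a
    rw [kern_succ]
    have hz : vec a + vec (flip a) = 0 := by
      rcases a with ⟨i, b⟩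
      cases b <;> simp [vec, flip]
    have hnn : ∀ b ∈ (Finset.univ : Finset (Arrow d)),
        0 ≤ kern ε ω (2 * k) (vec a + vec b) * trans ε ω (vec a + vec b) (vec a) :=
      fun b _ => mul_nonneg (kern_nonneg h0 h1 ω _ _)
        (h0.le.trans (trans_bounds h0 h1 ω (vec a) b).1)
    refine le_trans ?_ (Finset.single_le_sum hnn (Finset.mem_univ (flip a)))
    have h2 := (trans_bounds h0 h1 ω (vec a) (flip a)).1
    rw [hz] at h2 ⊢
    rw [pow_succ]
    exact mul_le_mul hk h2 h0.le (kern_nonneg h0 h1 ω _ _)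
  induction k with
  | zero =>
    have : ε ^ (2 * 0) ≤ kern ε ω (2 * 0) 0 := by simp [kern]
    exact ⟨this, step1 0 this⟩
  | succ k ih =>
    have h2k : ε ^ (2 * (k + 1)) ≤ kern ε ω (2 * (k + 1)) 0 := by
      have he : 2 * (k + 1) = (2 * k + 1) + 1 := by ring
      rw [he, kern_succ]
      have hnn : ∀ b ∈ (Finset.univ : Finset (Arrow d)),
          0 ≤ kern ε ω (2 * k + 1) (0 + vec b) * trans ε ω (0 + vec b) 0 :=
        fun b _ => mul_nonneg (kern_nonneg h0 h1 ω _ _)
          (h0.le.trans (trans_bounds h0 h1 ω 0 b).1)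
      have i0 : Fin d := ⟨0, Nat.pos_of_ne_zero (NeZero.ne d)⟩
      refine le_trans ?_ (Finset.single_le_sum hnn (Finset.mem_univ (i0, true)))
      have h2 := (trans_bounds h0 h1 ω 0 (i0, true)).1
      have h3 := ih.2 (i0, true)
      rw [zero_add] at h2 ⊢
      rw [pow_succ]
      exact mul_le_mul h3 h2 h0.le (kern_nonneg h0 h1 ω _ _)
    exact ⟨h2k, step1 _ h2k⟩

lemma avg_pos {ε : ℝ} (h0 : 0 < ε) (h1 : ε < 1 / (2 * d)) {n : ℕ} {x : Fin d → ℤ} {c : ℝ}
    (hc : 0 < c) (h : ∀ ω : Env d, c ≤ kern ε ω n x) : 0 < avgKern d ε n x := by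
  unfold avgKern
  have := integral_mono (integrable_const c) (kern_int h0 h1 n x) (fun ω => h ω)
  simp at this
  linarith

end bounds

section prob

variable {d : ℕ} [NeZero d]

omit [NeZero d] in
lemma arrowLaw_pos (a : Arrow d) : 0 < arrowLaw d {a} := by
  unfold arrowLaw
  rw [uniformOn_univ]
  refine ENNReal.div_pos ?_ (ENNReal.natCast_ne_top _)
  simp

/-- Any prescription of the arrows at the `2d` neighbours of `0` has positive probability. -/
lemma event_pos (g : Arrow d → Arrow d) :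
    0 < envLaw d {ω | ∀ a : Arrow d, ω (vec a) = g a} := by
  classical
  let s : Finset (Fin d → ℤ) := Finset.univ.image (vec : Arrow d → Fin d → ℤ)
  let t : (Fin d → ℤ) → Set (Arrow d) := fun x => {c | ∀ a, vec a = x → c = g a}
  have hset : {ω : Env d | ∀ a : Arrow d, ω (vec a) = g a} = Set.pi (s : Set (Fin d → ℤ)) t := by
    ext ω
    simp only [Set.mem_setOf_eq, Set.mem_pi, s, t, Finset.coe_image, Finset.coe_univ,
      Set.image_univ, Set.mem_range, forall_exists_index, forall_apply_eq_imp_iff]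
    constructor
    · intro h a b hb
      rw [vec_inj hb]; exact h a
    · intro h a
      exact h a a rfl
  rw [hset]
  unfold envLaw
  rw [Measure.infinitePi_pi _ (fun i _ => MeasurableSet.of_discrete)]
  rw [pos_iff_ne_zero, Finset.prod_ne_zero_iff]
  intro x hx
  obtain ⟨a, -, rfl⟩ := Finset.mem_image.1 hx
  refine (lt_of_lt_of_le (arrowLaw_pos (g a)) (measure_mono ?_)).ne'
  intro c hc b hb
  rw [vec_inj hb]
  simpa using hc

end prob

/-- **Condition (ii) fails for every `d ≥ 1` and every `0 < ε < 1/(2d)`.** -/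
theorem not_condII (d : ℕ) [NeZero d] (ε : ℝ) (h0 : 0 < ε) (h1 : ε < 1 / (2 * d)) :
    ¬ CondII d ε := by
  intro hII
  set q : ℝ := 1 - (2 * d - 1) * ε with hq
  have hqε : ε < q := one_sub_gt (d := d) h1
  -- choose `δ`
  obtain ⟨δ, hδ0, hδ1, hδ⟩ : ∃ δ : ℝ, 0 < δ ∧ δ < 1 ∧ ε * (1 + δ) ^ 2 < q * (1 - δ) ^ 2 := by
    have hc1 : ContinuousAt (fun t : ℝ => ε * (1 + t) ^ 2) 0 := by fun_prop
    have hc2 : ContinuousAt (fun t : ℝ => q * (1 - t) ^ 2) 0 := by fun_prop
    have hev : ∀ᶠ t in 𝓝 (0 : ℝ), ε * (1 + t) ^ 2 < q * (1 - t) ^ 2 :=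
      hc1.eventually_lt hc2 (by simpa using hqε)
    obtain ⟨r, hr, hr'⟩ := Metric.eventually_nhds_iff.1 hev
    refine ⟨min (r / 2) (1 / 2), by positivity,
      lt_of_le_of_lt (min_le_right _ _) (by norm_num), ?_⟩
    apply hr'
    rw [Real.dist_eq, sub_zero, abs_of_pos (by positivity)]
    exact lt_of_le_of_lt (min_le_left _ _) (by linarith)
  have hlim := hII 1 one_pos δ hδ0
  -- bad events
  let badA : ℕ → Arrow d → Set (Env d) := fun k a =>
    {ω | δ < |kern ε ω (2 * k + 1) (vec a) / avgKern d ε (2 * k + 1) (vec a) - 1|}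
  let badO : ℕ → Set (Env d) := fun k =>
    {ω | δ < |kern ε ω (2 * k + 2) 0 / avgKern d ε (2 * k + 2) 0 - 1|}
  have hposA : ∀ k (a : Arrow d), 0 < avgKern d ε (2 * k + 1) (vec a) := fun k a =>
    avg_pos h0 h1 (pow_pos h0 _) fun ω => (kern_lower h0 h1 ω k).2 a
  have hposO : ∀ k, 0 < avgKern d ε (2 * k + 2) 0 := fun k =>
    avg_pos h0 h1 (pow_pos h0 _) fun ω => (kern_lower h0 h1 ω (k + 1)).1
  have hA : ∀ a, Tendsto (fun k => envLaw d (badA k a)) atTop (𝓝 0) := by
    intro a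
    have hsub : Tendsto (fun k : ℕ => 2 * k + 1) atTop atTop :=
      tendsto_atTop_mono (fun k => by simp only [id]; omega) tendsto_id
    refine tendsto_of_tendsto_of_tendsto_of_le_of_le tendsto_const_nhds (hlim.comp hsub)
      (fun _ => zero_le) fun k => ?_
    refine le_iSup₂_of_le (vec a) ⟨?_, hposA k a⟩ le_rfl
    rw [sum_sq_vec, Real.sqrt_one, one_mul]
    rw [Real.one_le_sqrt]
    push_cast
    have : (0 : ℝ) ≤ k := Nat.cast_nonneg k
    linarith
  have hO : Tendsto (fun k => envLaw d (badO k)) atTop (𝓝 0) := by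
    have hsub : Tendsto (fun k : ℕ => 2 * k + 2) atTop atTop :=
      tendsto_atTop_mono (fun k => by simp only [id]; omega) tendsto_id
    refine tendsto_of_tendsto_of_tendsto_of_le_of_le tendsto_const_nhds (hlim.comp hsub)
      (fun _ => zero_le) fun k => ?_
    refine le_iSup₂_of_le (0 : Fin d → ℤ) ⟨?_, hposO k⟩ le_rfl
    simp
  have hsum : Tendsto (fun k => (∑ a : Arrow d, envLaw d (badA k a)) + envLaw d (badO k))
      atTop (𝓝 0) := by
    have := (tendsto_finsetSum (Finset.univ : Finset (Arrow d)) fun a _ => hA a).add hO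
    simpa using this
  have hEA := event_pos (d := d) flip
  have hEB := event_pos (d := d) id
  obtain ⟨k, hkA, hkB⟩ := (((tendsto_order.1 hsum).2 _ hEA).and
    ((tendsto_order.1 hsum).2 _ hEB)).exists
  have hbad : envLaw d ((⋃ a, badA k a) ∪ badO k)
      ≤ (∑ a : Arrow d, envLaw d (badA k a)) + envLaw d (badO k) :=
    (measure_union_le _ _).trans (add_le_add (measure_iUnion_fintype_le _ _) le_rfl)
  have hpick : ∀ g : Arrow d → Arrow d,
      (∑ a : Arrow d, envLaw d (badA k a)) + envLaw d (badO k)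
        < envLaw d {ω | ∀ a : Arrow d, ω (vec a) = g a} →
      ∃ ω : Env d, (∀ a : Arrow d, ω (vec a) = g a) ∧
        (∀ a, |kern ε ω (2 * k + 1) (vec a) / avgKern d ε (2 * k + 1) (vec a) - 1| ≤ δ) ∧
        |kern ε ω (2 * k + 2) 0 / avgKern d ε (2 * k + 2) 0 - 1| ≤ δ := by
    intro g hg
    by_contra hcon
    push Not at hcon
    have hsub : {ω : Env d | ∀ a : Arrow d, ω (vec a) = g a}
        ⊆ (⋃ a, badA k a) ∪ badO k := by
      intro ω hω
      by_cases hall : ∀ a, |kern ε ω (2 * k + 1) (vec a) /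
          avgKern d ε (2 * k + 1) (vec a) - 1| ≤ δ
      · right
        exact hcon ω hω hall
      · left
        push Not at hall
        obtain ⟨a, ha⟩ := hall
        exact Set.mem_iUnion.2 ⟨a, ha⟩
    exact absurd ((measure_mono hsub).trans hbad) (not_le.2 hg)
  obtain ⟨ω, hω, hωa, hωo⟩ := hpick flip hkA
  obtain ⟨ω', hω', hωa', hωo'⟩ := hpick id hkB
  -- notation
  set M : ℝ := ∑ a : Arrow d, avgKern d ε (2 * k + 1) (vec a) with hM
  set m : ℝ := avgKern d ε (2 * k + 2) 0 with hm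
  have hmpos : 0 < m := hposO k
  have i0 : Fin d := ⟨0, Nat.pos_of_ne_zero (NeZero.ne d)⟩
  have hMpos : 0 < M :=
    Finset.sum_pos (fun a _ => hposA k a) ⟨(i0, true), Finset.mem_univ _⟩
  have hflip : ∀ a : Arrow d, flip a ≠ a := by
    rintro ⟨i, b⟩; cases b <;> simp [flip]
  -- environment of type A
  have e1 : kern ε ω (2 * k + 2) 0 = ε * ∑ a : Arrow d, kern ε ω (2 * k + 1) (vec a) := by
    rw [show 2 * k + 2 = (2 * k + 1) + 1 by ring, kern_succ, Finset.mul_sum]
    refine Finset.sum_congr rfl fun a _ => ?_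
    rw [trans_step, zero_add, hω a, if_neg (hflip a)]
    ring
  have e2 : kern ε ω' (2 * k + 2) 0 = q * ∑ a : Arrow d, kern ε ω' (2 * k + 1) (vec a) := by
    rw [show 2 * k + 2 = (2 * k + 1) + 1 by ring, kern_succ, Finset.mul_sum]
    refine Finset.sum_congr rfl fun a _ => ?_
    rw [trans_step, zero_add, hω' a]
    simp only [id, if_true]
    ring
  have b1 : ∀ a : Arrow d, kern ε ω (2 * k + 1) (vec a)
      ≤ (1 + δ) * avgKern d ε (2 * k + 1) (vec a) := by
    intro a
    have h := (abs_le.1 (hωa a)).2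
    have hp := hposA k a
    have : kern ε ω (2 * k + 1) (vec a) / avgKern d ε (2 * k + 1) (vec a) ≤ 1 + δ := by linarith
    exact (div_le_iff₀ hp).1 this
  have b2 : ∀ a : Arrow d, (1 - δ) * avgKern d ε (2 * k + 1) (vec a)
      ≤ kern ε ω' (2 * k + 1) (vec a) := by
    intro a
    have h := (abs_le.1 (hωa' a)).1
    have hp := hposA k a
    have : 1 - δ ≤ kern ε ω' (2 * k + 1) (vec a) / avgKern d ε (2 * k + 1) (vec a) := by linarith
    exact (le_div_iff₀ hp).1 this
  have b3 : (1 - δ) * m ≤ kern ε ω (2 * k + 2) 0 := by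
    have h := (abs_le.1 hωo).1
    have : 1 - δ ≤ kern ε ω (2 * k + 2) 0 / m := by linarith
    exact (le_div_iff₀ hmpos).1 this
  have b4 : kern ε ω' (2 * k + 2) 0 ≤ (1 + δ) * m := by
    have h := (abs_le.1 hωo').2
    have : kern ε ω' (2 * k + 2) 0 / m ≤ 1 + δ := by linarith
    exact (div_le_iff₀ hmpos).1 this
  have c1 : (1 - δ) * m ≤ ε * ((1 + δ) * M) := by
    rw [e1] at b3
    refine b3.trans (mul_le_mul_of_nonneg_left ?_ h0.le)
    rw [hM, Finset.mul_sum]
    exact Finset.sum_le_sum fun a _ => b1 a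
  have c2 : q * ((1 - δ) * M) ≤ (1 + δ) * m := by
    rw [e2] at b4
    refine le_trans (mul_le_mul_of_nonneg_left ?_ (h0.trans hqε).le) b4
    rw [hM, Finset.mul_sum]
    exact Finset.sum_le_sum fun a _ => b2 a
  have c3 : q * (1 - δ) ^ 2 * M ≤ ε * (1 + δ) ^ 2 * M := by
    calc q * (1 - δ) ^ 2 * M = (1 - δ) * (q * ((1 - δ) * M)) := by ring
      _ ≤ (1 - δ) * ((1 + δ) * m) := mul_le_mul_of_nonneg_left c2 (by linarith)
      _ = (1 + δ) * ((1 - δ) * m) := by ring
      _ ≤ (1 + δ) * (ε * ((1 + δ) * M)) := mul_le_mul_of_nonneg_left c1 (by linarith)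
      _ = _ := by ring
  have c4 : ε * (1 + δ) ^ 2 * M < q * (1 - δ) ^ 2 * M := mul_lt_mul_of_pos_right hδ hMpos
  linarith

/-- **Main statement.** For every `d ≥ 1` and every `0 < ε < 1/(2d)` the model does not
homogenize. In particular (Q1) for no `d ≥ 3` is there an `ε₀ > 0` such that it homogenizes
for all `0 < ε < ε₀`; in fact it homogenizes for no `ε` at all. -/
theorem result :
    (∀ (d : ℕ) [NeZero d] (ε : ℝ), 0 < ε → ε < 1 / (2 * d) → ¬ Homogenizes d ε) ∧
    (∀ (d : ℕ) [NeZero d], 3 ≤ d →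
      ¬ ∃ ε₀ : ℝ, 0 < ε₀ ∧ ∀ ε : ℝ, 0 < ε → ε < 1 / (2 * d) → ε < ε₀ → Homogenizes d ε) := by
  refine ⟨fun d _ ε h0 h1 h => not_condII d ε h0 h1 h.2, ?_⟩
  rintro d _ hd ⟨ε₀, hε₀, h⟩
  have hd' : (0 : ℝ) < 1 / (2 * d) := by
    have : (0 : ℝ) < d := by exact_mod_cast (by omega : 0 < d)
    positivity
  have h0 : 0 < min ε₀ (1 / (2 * d : ℝ)) / 2 := by
    have := lt_min hε₀ hd'
    linarith
  have h1 : min ε₀ (1 / (2 * d : ℝ)) / 2 < min ε₀ (1 / (2 * d : ℝ)) := by linarith
  exact not_condII d _ h0 (h1.trans_le (min_le_right _ _))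
    (h _ h0 (h1.trans_le (min_le_right _ _)) (h1.trans_le (min_le_left _ _))).2

end Pool.Agent.Results.MP_31ab2b_pr.NoPointwiseHomogenization
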